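import Pool.Agent.H43.BZ.Stm5
import Pool.Agent.H280.BZ.KKI

/-!
# SOFT1: the collision moment for soft potentials
-/

set_option autoImplicit false

open MeasureTheory Metric Set

namespace Pool.Agent.H71.BZ

open Pool.Agent.H43.BZ Pool.Agent.H280.BZ

/-- the scaled singular part -/
theorem ph_scale_int {d : ℕ} (hd : 2 ≤ d) {γ δ : ℝ} (hγ : -(d : ℝ) < γ) (hδ : 0 < δ) (v : E d) :
    Integrable (fun w : E d => ph γ (δ⁻¹ • (v - w))) ∧
      ∫ w : E d, ph γ (δ⁻¹ • (v - w)) = δ ^ d * ∫ z : E d, ph γ z := by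
  have h1 : Integrable (fun z : E d => ph γ (δ⁻¹ • z)) :=
    (ph_int hd hγ).comp_smul (inv_ne_zero hδ.ne')
  refine ⟨h1.comp_sub_left v, ?_⟩
  rw [integral_sub_left_eq_self (fun z : E d => ph γ (δ⁻¹ • z)) volume v,
    Measure.integral_comp_smul, finrank_euclideanSpace_fin, inv_pow, inv_inv,
    abs_of_pos (pow_pos hδ d), smul_eq_mul]

theorem ph_scale {d : ℕ} {γ δ : ℝ} (hδ : 0 < δ) (z : E d) (hz : ‖z‖ < δ) :
    δ ^ γ * ph γ (δ⁻¹ • z) = ‖z‖ ^ γ := by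
  have h1 : ‖δ⁻¹ • z‖ = δ⁻¹ * ‖z‖ := by
    rw [norm_smul, Real.norm_eq_abs, abs_of_pos (inv_pos.2 hδ)]
  have h2 : δ⁻¹ • z ∈ ball (0 : E d) 1 := by
    rw [mem_ball_zero_iff, h1, inv_mul_lt_iff₀ hδ, mul_one]
    exact hz
  unfold ph
  rw [indicator_of_mem h2, h1, Real.mul_rpow (inv_pos.2 hδ).le (norm_nonneg _),
    Real.inv_rpow hδ.le, ← mul_assoc, mul_inv_cancel₀ (Real.rpow_pos_of_pos hδ γ).ne', one_mul]

theorem one_add_rpow_le {y p : ℝ} (hy : 0 ≤ y) (hp : 0 ≤ p) :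
    (1 + y) ^ p ≤ 2 ^ p * (1 + y ^ p) := by
  rcases le_total y 1 with h | h
  · have h1 : (1 + y) ^ p ≤ 2 ^ p := Real.rpow_le_rpow (by linarith) (by linarith) hp
    have h2 : 0 ≤ y ^ p := Real.rpow_nonneg hy p
    have h3 : (0 : ℝ) < 2 ^ p := by positivity
    nlinarith
  · have h1 : (1 + y) ^ p ≤ (2 * y) ^ p := Real.rpow_le_rpow (by linarith) (by linarith) hp
    rw [Real.mul_rpow (by norm_num) hy] at h1
    have h3 : (0 : ℝ) < 2 ^ p := by positivity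
    nlinarith

/-- the pointwise bound -/
theorem pt {d : ℕ} {s γ p R δ A₀ a : ℝ} (hs0 : 0 < s) (hs1 : s ≤ 1) (hγ : γ < 0) (hp : 2 ≤ p)
    (hR : 0 < R) (hδ : 0 < δ) (v w : E d) (ha0 : 0 ≤ a) (ha : a ≤ A₀) :
    a * kkR γ s R v w ≤
      2 * ((R + ‖v‖) / R) ^ (2 * s) * A₀ * δ ^ γ * ph γ (δ⁻¹ • (v - w)) +
        (2 * ((R + ‖v‖) / R) ^ (2 * s) * δ ^ γ * (4 / 3) ^ p * ((R + ‖v‖) / R) ^ (-p) +
          (R / 4) ^ γ) * (a * (1 + ‖w‖ / R) ^ p) := by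
  have hv0 := norm_nonneg v
  have hw0 := norm_nonneg w
  have hρ0 := norm_nonneg (v - w)
  have hV : 0 < R + ‖v‖ := by linarith
  have hr : 0 < (R + ‖v‖) / R := by positivity
  have hW1 : 1 ≤ 1 + ‖w‖ / R := by
    have : 0 ≤ ‖w‖ / R := by positivity
    linarith
  have hW0 : 0 < 1 + ‖w‖ / R := by linarith
  have hWe : 1 + ‖w‖ / R = (R + ‖w‖) / R := by field_simp
  have hργ : 0 ≤ ‖v - w‖ ^ γ := Real.rpow_nonneg hρ0 γ
  have hk : kkR γ s R v w ≤ ‖v - w‖ ^ γ * (1 + ‖w‖ / R) ^ (2 * s) := by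
    unfold kkR
    refine div_le_self (by positivity) ?_
    have := sq_nonneg (‖v - w‖ / (R + ‖w‖))
    linarith
  have hph := ph_nonneg γ (δ⁻¹ • (v - w))
  have hA0 : 0 ≤ A₀ := ha0.trans ha
  refine (mul_le_mul_of_nonneg_left hk ha0).trans ?_
  rcases lt_or_ge ‖v - w‖ ((R + ‖v‖) / 4) with hnear | hfar
  · -- near region
    have h1 : ‖w‖ ≤ ‖v‖ + ‖v - w‖ := by
      have := norm_sub_norm_le w v
      rw [norm_sub_rev w v] at this
      linarith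
    have h2 : ‖v‖ ≤ ‖w‖ + ‖v - w‖ := by
      have := norm_sub_norm_le v w
      linarith
    have h3 : 1 + ‖w‖ / R ≤ 5 / 4 * ((R + ‖v‖) / R) := by
      rw [hWe, ← mul_div_assoc]
      exact div_le_div_of_nonneg_right (by linarith) hR.le
    have h4 : (R + ‖v‖) / R ≤ 4 / 3 * (1 + ‖w‖ / R) := by
      rw [hWe, ← mul_div_assoc]
      exact div_le_div_of_nonneg_right (by linarith) hR.le
    have h5 : (1 + ‖w‖ / R) ^ (2 * s) ≤ 2 * ((R + ‖v‖) / R) ^ (2 * s) := by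
      refine (Real.rpow_le_rpow hW0.le h3 (by positivity)).trans ?_
      rw [Real.mul_rpow (by norm_num) hr.le]
      refine mul_le_mul_of_nonneg_right ?_ (by positivity)
      refine (Real.rpow_le_rpow_of_exponent_le (by norm_num) (show 2 * s ≤ (2 : ℝ) by linarith)).trans
        ?_
      rw [Real.rpow_two]
      norm_num
    rcases lt_or_ge ‖v - w‖ δ with hδ1 | hδ1
    · have h6 := ph_scale (γ := γ) hδ (v - w) hδ1
      have h7 : a * (‖v - w‖ ^ γ * (1 + ‖w‖ / R) ^ (2 * s)) ≤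
          A₀ * (‖v - w‖ ^ γ * (2 * ((R + ‖v‖) / R) ^ (2 * s))) :=
        mul_le_mul ha (mul_le_mul_of_nonneg_left h5 hργ) (by positivity) hA0
      have h8 : A₀ * (‖v - w‖ ^ γ * (2 * ((R + ‖v‖) / R) ^ (2 * s))) =
          2 * ((R + ‖v‖) / R) ^ (2 * s) * A₀ * δ ^ γ * ph γ (δ⁻¹ • (v - w)) := by
        rw [← h6]
        ring
      have h9 : 0 ≤ (2 * ((R + ‖v‖) / R) ^ (2 * s) * δ ^ γ * (4 / 3) ^ p *
          ((R + ‖v‖) / R) ^ (-p) + (R / 4) ^ γ) * (a * (1 + ‖w‖ / R) ^ p) := by positivity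
      linarith
    · have h6 : ‖v - w‖ ^ γ ≤ δ ^ γ := Real.rpow_le_rpow_of_nonpos hδ hδ1 hγ.le
      have h7 : 1 ≤ (4 / 3) ^ p * ((R + ‖v‖) / R) ^ (-p) * (1 + ‖w‖ / R) ^ p := by
        have h8 : ((R + ‖v‖) / R) ^ p ≤ (4 / 3) ^ p * (1 + ‖w‖ / R) ^ p := by
          rw [← Real.mul_rpow (by norm_num) hW0.le]
          exact Real.rpow_le_rpow hr.le h4 (by linarith)
        have h9 : 0 < ((R + ‖v‖) / R) ^ p := Real.rpow_pos_of_pos hr p
        rw [Real.rpow_neg hr.le]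
        have h10 : (4 / 3) ^ p * (((R + ‖v‖) / R) ^ p)⁻¹ * (1 + ‖w‖ / R) ^ p =
            ((4 / 3) ^ p * (1 + ‖w‖ / R) ^ p) / ((R + ‖v‖) / R) ^ p := by
          rw [div_eq_mul_inv]
          ring
        rw [h10, one_le_div h9]
        exact h8
      have h8 : a * (‖v - w‖ ^ γ * (1 + ‖w‖ / R) ^ (2 * s)) ≤
          a * (δ ^ γ * (2 * ((R + ‖v‖) / R) ^ (2 * s))) :=
        mul_le_mul_of_nonneg_left (mul_le_mul h6 h5 (by positivity) (by positivity)) ha0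
      have h9 : a * (δ ^ γ * (2 * ((R + ‖v‖) / R) ^ (2 * s))) ≤
          a * (δ ^ γ * (2 * ((R + ‖v‖) / R) ^ (2 * s))) *
            ((4 / 3) ^ p * ((R + ‖v‖) / R) ^ (-p) * (1 + ‖w‖ / R) ^ p) :=
        le_mul_of_one_le_right (by positivity) h7
      have h10 : a * (δ ^ γ * (2 * ((R + ‖v‖) / R) ^ (2 * s))) *
            ((4 / 3) ^ p * ((R + ‖v‖) / R) ^ (-p) * (1 + ‖w‖ / R) ^ p) =
          2 * ((R + ‖v‖) / R) ^ (2 * s) * δ ^ γ * (4 / 3) ^ p * ((R + ‖v‖) / R) ^ (-p) *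
            (a * (1 + ‖w‖ / R) ^ p) := by ring
      have h11 : 0 ≤ (R / 4) ^ γ * (a * (1 + ‖w‖ / R) ^ p) := by positivity
      have h12 : 0 ≤ 2 * ((R + ‖v‖) / R) ^ (2 * s) * A₀ * δ ^ γ * ph γ (δ⁻¹ • (v - w)) := by
        positivity
      rw [add_mul]
      linarith
  · -- far region
    have h1 : ‖v - w‖ ^ γ ≤ (R / 4) ^ γ :=
      Real.rpow_le_rpow_of_nonpos (by positivity) (by linarith) hγ.le
    have h2 : (1 + ‖w‖ / R) ^ (2 * s) ≤ (1 + ‖w‖ / R) ^ p :=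
      Real.rpow_le_rpow_of_exponent_le hW1 (by linarith)
    have h3 : a * (‖v - w‖ ^ γ * (1 + ‖w‖ / R) ^ (2 * s)) ≤
        a * ((R / 4) ^ γ * (1 + ‖w‖ / R) ^ p) :=
      mul_le_mul_of_nonneg_left (mul_le_mul h1 h2 (by positivity) (by positivity)) ha0
    have h4 : 0 ≤ 2 * ((R + ‖v‖) / R) ^ (2 * s) * δ ^ γ * (4 / 3) ^ p *
        ((R + ‖v‖) / R) ^ (-p) * (a * (1 + ‖w‖ / R) ^ p) := by positivity
    have h12 : 0 ≤ 2 * ((R + ‖v‖) / R) ^ (2 * s) * A₀ * δ ^ γ * ph γ (δ⁻¹ • (v - w)) := by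
      positivity
    have h5 : a * ((R / 4) ^ γ * (1 + ‖w‖ / R) ^ p) = (R / 4) ^ γ * (a * (1 + ‖w‖ / R) ^ p) := by
      ring
    rw [add_mul]
    linarith

theorem SOFT1 : S_SOFT1 := by
  intro d hd s γ p hs0 hs1 hγd hγ hp h2sd
  have hd0 : (0 : ℝ) < d := by
    have : 0 < d := by omega
    exact_mod_cast this
  have hc0 : 0 ≤ ∫ z : E d, ph γ z := integral_nonneg fun z => ph_nonneg γ z
  obtain ⟨c, hc⟩ : ∃ c, c = ∫ z : E d, ph γ z := ⟨_, rfl⟩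
  rw [← hc] at hc0
  refine ⟨2 * c + 2 * (4 / 3) ^ p * 2 ^ p + (1 / 4) ^ γ * 2 ^ p, by positivity, ?_⟩
  intro R hR g hgm hg0 hgi A₀ A₁ A₂ hA₀ hA₁ hA₂ hgA₀ hgA₁ hgA₂ v
  have hV : 0 < R + ‖v‖ := by
    have := norm_nonneg v
    linarith
  obtain ⟨r, hr⟩ : ∃ r, r = (R + ‖v‖) / R := ⟨_, rfl⟩
  have hr1 : 1 ≤ r := by
    rw [hr, one_le_div hR]
    have := norm_nonneg v
    linarith
  have hr0 : 0 < r := by linarith
  obtain ⟨M, hM⟩ : ∃ M, M = A₁ + A₂ / R ^ p := ⟨_, rfl⟩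
  have hM0 : 0 < M := by
    have : 0 ≤ A₂ / R ^ p := by positivity
    rw [hM]
    linarith
  rw [← hM]
  -- the radius
  obtain ⟨b, hb⟩ : ∃ b, b = r ^ (-p) * M / A₀ := ⟨_, rfl⟩
  have hb0 : 0 < b := by
    rw [hb]
    positivity
  obtain ⟨δ, hδ⟩ : ∃ δ, δ = b ^ (1 / (d : ℝ)) := ⟨_, rfl⟩
  have hδ0 : 0 < δ := by
    rw [hδ]
    positivity
  have hδd : δ ^ d = b := by
    rw [hδ, ← Real.rpow_natCast, ← Real.rpow_mul hb0.le, one_div_mul_cancel hd0.ne', Real.rpow_one]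
  have hδγ : δ ^ γ = b ^ (γ / d) := by
    rw [hδ, ← Real.rpow_mul hb0.le]
    congr 1
    ring
  -- integrability
  have hgi1 : Integrable g := by
    refine hgi.mono' hgm.aestronglyMeasurable (Filter.Eventually.of_forall fun w => ?_)
    rw [Real.norm_eq_abs, abs_of_nonneg (hg0 w)]
    refine le_mul_of_one_le_right (hg0 w) ?_
    exact Real.one_le_rpow (by linarith [norm_nonneg w]) (by linarith)
  have hgi2 : Integrable (fun w : E d => g w * ‖w‖ ^ p) := by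
    refine hgi.mono' (hgm.mul (measurable_norm.pow_const p)).aestronglyMeasurable
      (Filter.Eventually.of_forall fun w => ?_)
    have h1 : 0 ≤ ‖w‖ ^ p := Real.rpow_nonneg (norm_nonneg w) p
    rw [Real.norm_eq_abs, abs_of_nonneg (mul_nonneg (hg0 w) h1)]
    refine mul_le_mul_of_nonneg_left ?_ (hg0 w)
    exact Real.rpow_le_rpow (norm_nonneg w) (by linarith) (by linarith)
  have hgi3 : Integrable (fun w : E d => g w + g w * ‖w‖ ^ p / R ^ p) :=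
    hgi1.add (hgi2.div_const _)
  have hint3 : ∫ w, (g w + g w * ‖w‖ ^ p / R ^ p) ≤ M := by
    rw [integral_add hgi1 (hgi2.div_const _), integral_div, hM]
    refine add_le_add hgA₁ ?_
    exact div_le_div_of_nonneg_right hgA₂ (by positivity)
  obtain ⟨hsi, hsv⟩ := ph_scale_int (γ := γ) hd hγd hδ0 v
  -- the majorant
  have hmaj : ∀ w : E d, g w * kkR γ s R v w ≤
      2 * r ^ (2 * s) * A₀ * δ ^ γ * ph γ (δ⁻¹ • (v - w)) +
        (2 * r ^ (2 * s) * δ ^ γ * (4 / 3) ^ p * r ^ (-p) + (R / 4) ^ γ) * 2 ^ p *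
          (g w + g w * ‖w‖ ^ p / R ^ p) := by
    intro w
    have h1 := pt hs0 hs1 hγ hp hR hδ0 v w (hg0 w) (hgA₀ w)
    rw [← hr] at h1
    refine h1.trans ?_
    have h2 : (1 + ‖w‖ / R) ^ p ≤ 2 ^ p * (1 + ‖w‖ ^ p / R ^ p) := by
      rw [← Real.div_rpow (norm_nonneg w) hR.le]
      exact one_add_rpow_le (by positivity) (by linarith)
    have h3 : g w * (1 + ‖w‖ / R) ^ p ≤ 2 ^ p * (g w + g w * ‖w‖ ^ p / R ^ p) := by
      refine (mul_le_mul_of_nonneg_left h2 (hg0 w)).trans (le_of_eq ?_)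
      ring
    have h4 : 0 ≤ 2 * r ^ (2 * s) * δ ^ γ * (4 / 3) ^ p * r ^ (-p) + (R / 4) ^ γ := by positivity
    have h5 := mul_le_mul_of_nonneg_left h3 h4
    rw [← mul_assoc] at h5
    linarith
  have hkk0 : ∀ w : E d, 0 ≤ g w * kkR γ s R v w := by
    intro w
    refine mul_nonneg (hg0 w) ?_
    unfold kkR
    have h1 : 0 ≤ ‖v - w‖ ^ γ := Real.rpow_nonneg (norm_nonneg _) _
    have h2 : 0 ≤ ‖w‖ / R := by positivity
    positivity
  have h1 : ∫ w, g w * kkR γ s R v w ≤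
      2 * r ^ (2 * s) * A₀ * δ ^ γ * (δ ^ d * c) +
        (2 * r ^ (2 * s) * δ ^ γ * (4 / 3) ^ p * r ^ (-p) + (R / 4) ^ γ) * 2 ^ p * M := by
    refine (integral_mono_of_nonneg (Filter.Eventually.of_forall hkk0)
      ((hsi.const_mul _).add (hgi3.const_mul _)) (Filter.Eventually.of_forall hmaj)).trans ?_
    simp only [Pi.add_apply]
    rw [integral_add (hsi.const_mul _) (hgi3.const_mul _), integral_const_mul, integral_const_mul,
      hsv, ← hc]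
    have h4 : 0 ≤ (2 * r ^ (2 * s) * δ ^ γ * (4 / 3) ^ p * r ^ (-p) + (R / 4) ^ γ) * 2 ^ p := by
      positivity
    have h5 := mul_le_mul_of_nonneg_left hint3 h4
    linarith
  refine h1.trans ?_
  -- the common factor
  have hX : r ^ (2 * s) * (A₀ * (b ^ (γ / d) * b)) ≤ A₀ ^ (-γ / d) * M ^ (1 + γ / d) := by
    have h2 : b ^ (γ / d) * b = b ^ (1 + γ / d) := by
      rw [add_comm, Real.rpow_add hb0, Real.rpow_one]
    have h3 : b ^ (1 + γ / d) = r ^ (-p * (1 + γ / d)) * M ^ (1 + γ / d) / A₀ ^ (1 + γ / d) := by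
      rw [hb, Real.div_rpow (by positivity) hA₀.le, Real.mul_rpow (by positivity) hM0.le,
        ← Real.rpow_mul hr0.le]
    have h4 : A₀ * (A₀ ^ (1 + γ / d))⁻¹ = A₀ ^ (-γ / d) := by
      rw [← Real.rpow_neg hA₀.le]
      nth_rewrite 1 [← Real.rpow_one A₀]
      rw [← Real.rpow_add hA₀]
      congr 1
      ring
    have h5 : r ^ (2 * s) * (A₀ * (b ^ (γ / d) * b)) =
        (r ^ (2 * s) * r ^ (-p * (1 + γ / d))) * (A₀ ^ (-γ / d) * M ^ (1 + γ / d)) := by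
      rw [h2, h3, ← h4]
      ring
    rw [h5, ← Real.rpow_add hr0]
    refine mul_le_of_le_one_left (by positivity) ?_
    refine Real.rpow_le_one_of_one_le_of_nonpos hr1 ?_
    have h6 : 2 * s ≤ p * (1 + γ / d) := by
      have h7 : p * (1 + γ / d) = p * (d + γ) / d := by
        field_simp
      rw [h7, le_div_iff₀ hd0]
      exact h2sd
    linarith
  have hT1 : 2 * r ^ (2 * s) * A₀ * δ ^ γ * (δ ^ d * c) =
      2 * c * (r ^ (2 * s) * (A₀ * (b ^ (γ / d) * b))) := by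
    rw [hδd, hδγ]
    ring
  have hT2 : 2 * r ^ (2 * s) * δ ^ γ * (4 / 3) ^ p * r ^ (-p) * 2 ^ p * M =
      2 * (4 / 3) ^ p * 2 ^ p * (r ^ (2 * s) * (A₀ * (b ^ (γ / d) * b))) := by
    have h2 : A₀ * b = r ^ (-p) * M := by
      rw [hb]
      field_simp
    have h3 : r ^ (2 * s) * (A₀ * (b ^ (γ / d) * b)) = r ^ (2 * s) * b ^ (γ / d) * (A₀ * b) := by
      ring
    rw [h3, h2, hδγ]
    ring
  have hT3 : (R / 4) ^ γ * 2 ^ p * M = (1 / 4) ^ γ * 2 ^ p * (R ^ γ * M) := by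
    rw [show R / 4 = (1 / 4) * R by ring, Real.mul_rpow (by norm_num) hR.le]
    ring
  rw [add_mul, add_mul, hT1, hT2, hT3]
  obtain ⟨Y, hY⟩ : ∃ Y, Y = A₀ ^ (-γ / d) * M ^ (1 + γ / d) := ⟨_, rfl⟩
  obtain ⟨Z, hZ⟩ : ∃ Z, Z = R ^ γ * M := ⟨_, rfl⟩
  have hY0 : 0 ≤ Y := by
    rw [hY]
    positivity
  have hZ0 : 0 ≤ Z := by
    rw [hZ]
    positivity
  rw [← hY] at hX ⊢
  rw [← hZ]
  have k1 : 0 ≤ 2 * c := by positivity
  have k2 : (0 : ℝ) ≤ 2 * (4 / 3) ^ p * 2 ^ p := by positivity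
  have k3 : (0 : ℝ) ≤ (1 / 4) ^ γ * 2 ^ p := by positivity
  have e1 := mul_le_mul_of_nonneg_left hX k1
  have e2 := mul_le_mul_of_nonneg_left hX k2
  have e3 := mul_nonneg k1 hZ0
  have e4 := mul_nonneg k2 hZ0
  have e5 := mul_nonneg k3 hY0
  calc 2 * c * (r ^ (2 * s) * (A₀ * (b ^ (γ / d) * b))) +
        (2 * (4 / 3) ^ p * 2 ^ p * (r ^ (2 * s) * (A₀ * (b ^ (γ / d) * b))) +
          (1 / 4) ^ γ * 2 ^ p * Z)
      ≤ 2 * c * Y + (2 * (4 / 3) ^ p * 2 ^ p * Y + (1 / 4) ^ γ * 2 ^ p * Z) := by linarith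
    _ ≤ 2 * c * Y + (2 * (4 / 3) ^ p * 2 ^ p * Y + (1 / 4) ^ γ * 2 ^ p * Z) +
        (2 * c * Z + 2 * (4 / 3) ^ p * 2 ^ p * Z + (1 / 4) ^ γ * 2 ^ p * Y) := by linarith
    _ = _ := by ring

end Pool.Agent.H71.BZ
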